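import Pool.Agent.Lib.MP_144d21_co.X2.IfaceC

/-!
# X2, module ALGC: linear algebra of case C
-/

set_option autoImplicit false

namespace Pool.Agent.Xu.X2.H40

open Finset Pool.Agent.Xu

theorem mem_W_inf {W : Submodule ℝ (Fin 3 → ℝ)} {I : Finset (Fin 3)} {ν : Fin 3 → ℝ} :
    ν ∈ W ⊓ (⨅ i ∈ I, LinearMap.ker (LinearMap.proj i : (Fin 3 → ℝ) →ₗ[ℝ] ℝ)) ↔
      ν ∈ W ∧ ∀ i ∈ I, ν i = 0 := by
  simp only [Submodule.mem_inf, Submodule.mem_iInf, LinearMap.mem_ker, LinearMap.proj_apply]

theorem dfc_empty (W : Submodule ℝ (Fin 3 → ℝ)) : dfc W ∅ = Module.finrank ℝ W := by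
  unfold dfc
  congr 2
  all_goals simp

/-- ALGC -/
theorem algc : AlgcS := by
  intro W U U2 bX m a hm hU ha hI hd hb
  have hm1 : (0 : ℝ) ≤ (m : ℝ) - 1 := by
    have : (1 : ℝ) ≤ m := by exact_mod_cast hm
    linarith
  have h0 := ha {0}
  by_cases h : Inj W {1, 2}
  · have h1 := hI _ h
    have h2 : ((m : ℝ) - 1) * U ≤ ((m : ℝ) - 1) * a {1, 2} := mul_le_mul_of_nonneg_left h1 hm1
    rcases Nat.lt_or_ge (dfc W ∅) 1 with h3 | h3
    · left
      have h4 : dfc W ∅ = 0 := by omega
      refine ⟨h4, ?_⟩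
      rw [dfc_empty, Submodule.finrank_eq_zero] at h4
      have h5 : Inj W {0} := by
        intro ν hν _
        rw [h4] at hν
        exact (Submodule.mem_bot ℝ).1 hν
      have h6 := hI _ h5
      rw [hb]
      have : (m : ℝ) * U = ((m : ℝ) - 1) * U + U := by ring
      linarith
    · rcases Nat.lt_or_ge (dfc W ∅) 2 with h4 | h4
      · right; left
        exact ⟨by omega, Or.inl (by rw [hb]; linarith)⟩
      · right; right
        exact ⟨h4, Or.inl (by rw [hb]; linarith)⟩
  · -- `e_0 ∈ W`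
    unfold Inj at h
    push Not at h
    obtain ⟨ν, hν, hν12, hν0⟩ := h
    set K : Submodule ℝ (Fin 3 → ℝ) :=
      W ⊓ (⨅ i ∈ ({1, 2} : Finset (Fin 3)),
        LinearMap.ker (LinearMap.proj i : (Fin 3 → ℝ) →ₗ[ℝ] ℝ)) with hK
    have hKν : ν ∈ K := mem_W_inf.2 ⟨hν, hν12⟩
    have hKle : K ≤ Submodule.span ℝ {(Pi.single 0 1 : Fin 3 → ℝ)} := by
      intro x hx
      have hx' := (mem_W_inf.1 hx).2
      rw [Submodule.mem_span_singleton]
      refine ⟨x 0, ?_⟩
      funext i
      fin_cases i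
      · simp
      · have := hx' 1 (by simp)
        simp [this]
      · have := hx' 2 (by simp)
        simp [this]
    have hK1 : Module.finrank ℝ K = 1 := by
      apply le_antisymm
      · refine (Submodule.finrank_mono hKle).trans ?_
        exact (finrank_span_le_card _).trans (by simp)
      · rw [Nat.one_le_iff_ne_zero]
        intro h0
        rw [Submodule.finrank_eq_zero] at h0
        rw [h0] at hKν
        exact hν0 ((Submodule.mem_bot ℝ).1 hKν)
    have hd1 : dfc W {1, 2} = 1 := hK1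
    have h1 := hd hd1
    have h2 : ((m : ℝ) - 1) * U2 ≤ ((m : ℝ) - 1) * a {1, 2} := mul_le_mul_of_nonneg_left h1 hm1
    have hKW : K ≤ W := inf_le_left
    have hW1 : 1 ≤ Module.finrank ℝ W := hK1 ▸ Submodule.finrank_mono hKW
    rcases Nat.lt_or_ge (dfc W ∅) 2 with h4 | h4
    · right; left
      rw [dfc_empty] at h4 ⊢
      have h5 : Module.finrank ℝ W = 1 := by omega
      refine ⟨h5, Or.inr ?_⟩
      have h6 : K = W := Submodule.eq_of_le_of_finrank_eq hKW (by rw [hK1, h5])
      have h7 : Inj W {0} := by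
        intro x hx hx0
        rw [← h6] at hx
        have hx' := (mem_W_inf.1 hx).2
        funext i
        fin_cases i
        · exact hx0 0 (by simp)
        · exact hx' 1 (by simp)
        · exact hx' 2 (by simp)
      have h8 := hI _ h7
      rw [hb]
      linarith
    · right; right
      exact ⟨h4, Or.inr (by rw [hb]; linarith)⟩

end Pool.Agent.Xu.X2.H40
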