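import Pool.Agent.Lib.MP_144d21_co.X2.H40.Sym
import Pool.Agent.Lib.MP_144d21_co.XU.H30.K5dep

/-!
# X2, rank facts: 0-extensions, cliques, gluing along three vertices
-/

set_option autoImplicit false
set_option linter.unusedSectionVars false
set_option linter.unusedVariables false

namespace Pool.Agent.Xu.X2.H40

open Finset Pool.Agent.Xu

variable {V : Type} [Fintype V] [DecidableEq V]

/-! ### Supports -/

theorem row_apply_of_ne (p : V → Fin 3 → ℝ) {u v w : V} (h1 : w ≠ u) (h2 : w ≠ v) :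
    row p u v w = 0 := by
  simp [row, Pi.single_eq_of_ne h1, Pi.single_eq_of_ne h2]

theorem row_apply_left (p : V → Fin 3 → ℝ) {u v : V} (h : u ≠ v) :
    row p u v u = p u - p v := by
  simp [row, Pi.single_eq_of_ne h]

theorem row_apply_right (p : V → Fin 3 → ℝ) {u v : V} (h : u ≠ v) :
    row p u v v = p v - p u := by
  simp [row, Pi.single_eq_of_ne h.symm]

theorem row_congr {p q : V → Fin 3 → ℝ} {u v : V} (h1 : p u = q u) (h2 : p v = q v) :
    row p u v = row q u v := by
  simp only [row, h1, h2]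

/-- the elements of the row space vanish outside `S` -/
theorem rs_supp {p : V → Fin 3 → ℝ} {G : SimpleGraph V} {S : Finset V} {z : V → Fin 3 → ℝ}
    (hz : z ∈ rs p G S) {w : V} (hw : w ∉ S) : z w = 0 := by
  unfold rs at hz
  induction hz using Submodule.span_induction with
  | mem x hx =>
    obtain ⟨u, hu, v, hv, -, rfl⟩ := hx
    exact row_apply_of_ne p (fun e => hw (e ▸ hu)) (fun e => hw (e ▸ hv))
  | zero => rfl
  | add x y _ _ hx hy => rw [Pi.add_apply, hx, hy, add_zero]
  | smul r x _ hx => rw [Pi.smul_apply, hx, smul_zero]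

theorem rs_congr_p {p q : V → Fin 3 → ℝ} {G : SimpleGraph V} {S : Finset V}
    (h : ∀ v ∈ S, p v = q v) : rs p G S = rs q G S := by
  unfold rs
  congr 1
  ext x
  constructor
  · rintro ⟨u, hu, v, hv, ha, rfl⟩
    exact ⟨u, hu, v, hv, ha, row_congr (h u hu) (h v hv)⟩
  · rintro ⟨u, hu, v, hv, ha, rfl⟩
    exact ⟨u, hu, v, hv, ha, (row_congr (h u hu) (h v hv)).symm⟩

theorem row_mem_rs {p : V → Fin 3 → ℝ} {G : SimpleGraph V} {S : Finset V} {u v : V} (hu : u ∈ S)
    (hv : v ∈ S) (h : G.Adj u v) : row p u v ∈ rs p G S := Submodule.subset_span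
  ⟨u, hu, v, hv, h, rfl⟩

/-! ### Unions -/

theorem rs_union {p : V → Fin 3 → ℝ} {G : SimpleGraph V} {R L : Finset V} (h : Sep G R L) :
    rs p G (R ∪ L) = rs p G R ⊔ rs p G L := by
  apply le_antisymm
  · conv_lhs => unfold rs
    refine Submodule.span_le.2 ?_
    rintro z ⟨a, ha, b, hb, hab, rfl⟩
    rw [Finset.mem_union] at ha hb
    by_cases h1 : a ∈ R ∧ b ∈ R
    · exact Submodule.mem_sup_left (row_mem_rs h1.1 h1.2 hab)
    · by_cases h2 : a ∈ L ∧ b ∈ L
      · exact Submodule.mem_sup_right (row_mem_rs h2.1 h2.2 hab)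
      · exfalso
        by_cases ha1 : a ∈ R
        · have hb1 : b ∉ R := fun hb1 => h1 ⟨ha1, hb1⟩
          have hb2 : b ∈ L := hb.resolve_left hb1
          have ha2 : a ∉ L := fun ha2 => h2 ⟨ha2, hb2⟩
          exact h a ha1 ha2 b hb2 hb1 hab
        · have ha2 : a ∈ L := ha.resolve_left ha1
          have hb2 : b ∉ L := fun hb2 => h2 ⟨ha2, hb2⟩
          have hb1 : b ∈ R := hb.resolve_right hb2
          exact h b hb1 hb2 a ha2 ha1 hab.symm
  · rw [sup_le_iff]
    exact ⟨rs_mono subset_union_left fun _ _ _ _ h => h,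
      rs_mono subset_union_right fun _ _ _ _ h => h⟩

/-- splitting off a vertex -/
theorem rs_vertex (p : V → Fin 3 → ℝ) (G : SimpleGraph V) {S : Finset V} {v : V} (hv : v ∈ S) :
    rs p G S = rs p G (S.erase v) ⊔
      Submodule.span ℝ ((fun w => row p v w) '' (nb G S v : Set V)) := by
  apply le_antisymm
  · conv_lhs => unfold rs
    refine Submodule.span_le.2 ?_
    rintro z ⟨a, ha, b, hb, hab, rfl⟩
    by_cases h1 : a = v
    · subst h1
      exact Submodule.mem_sup_right (Submodule.subset_span ⟨b, mem_nb.2 ⟨hb, hab⟩, rfl⟩)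
    · by_cases h2 : b = v
      · subst h2
        rw [row_comm]
        exact Submodule.mem_sup_right (Submodule.subset_span ⟨a, mem_nb.2 ⟨ha, hab.symm⟩, rfl⟩)
      · exact Submodule.mem_sup_left (row_mem_rs (mem_erase.2 ⟨h1, ha⟩) (mem_erase.2 ⟨h2, hb⟩) hab)
  · rw [sup_le_iff]
    refine ⟨rs_mono (erase_subset _ _) fun _ _ _ _ h => h, ?_⟩
    rw [Submodule.span_le]
    rintro _ ⟨w, hw, rfl⟩
    have h := mem_nb.1 hw
    exact row_mem_rs hv h.1 h.2

/-! ### 0-extensions -/

/-- linear algebra: `z = y + ∑ c_w row v w`, and the `p v - p w` are independent -/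
theorem zex_aux {M N : Type} [AddCommGroup M] [Module ℝ M] [AddCommGroup N] [Module ℝ N]
    (π : M →ₗ[ℝ] N) (U : Submodule ℝ M) (hU : ∀ z ∈ U, π z = 0) {ι : Type} (s : Set ι) (f : ι → M)
    (hli : LinearIndepOn ℝ (fun i => π (f i)) s) {z : M}
    (hz : z ∈ U ⊔ Submodule.span ℝ (f '' s)) (h0 : π z = 0) : z ∈ U := by
  obtain ⟨y, hy, x, hx, rfl⟩ := Submodule.mem_sup.1 hz
  rw [map_add, hU y hy, zero_add] at h0
  rw [Finsupp.mem_span_image_iff_linearCombination] at hx
  obtain ⟨l, hl, rfl⟩ := hx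
  rw [linearIndepOn_iff] at hli
  have h1 := hli l hl (by
    rw [Finsupp.linearCombination_apply] at h0 ⊢
    rw [← h0, Finsupp.sum, Finsupp.sum, map_sum]
    exact Finset.sum_congr rfl fun i _ => by rw [map_smul])
  rw [h1, map_zero, add_zero]
  exact hy

/-- evaluation at `v` -/
def ev (v : V) : (V → Fin 3 → ℝ) →ₗ[ℝ] (Fin 3 → ℝ) := LinearMap.proj v

theorem ev_apply (v : V) (z : V → Fin 3 → ℝ) : ev v z = z v := rfl

/-- an element of the row space which vanishes at `v` comes from `S.erase v` -/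
theorem zex_mem {p : V → Fin 3 → ℝ} {G : SimpleGraph V} {S : Finset V} {v : V} (hv : v ∈ S)
    (hli : LinearIndepOn ℝ (fun w => p v - p w) (nb G S v : Set V)) {z : V → Fin 3 → ℝ}
    (hz : z ∈ rs p G S) (h0 : z v = 0) : z ∈ rs p G (S.erase v) := by
  rw [rs_vertex p G hv] at hz
  refine zex_aux (ev v) _ (fun y hy => rs_supp hy (by simp)) _ _ ?_ hz h0
  refine hli.congr fun w hw => ?_
  have h : v ≠ w := (mem_nb.1 hw).2.ne
  rw [ev_apply, row_apply_left p h]

theorem zex_rank {p : V → Fin 3 → ℝ} {G : SimpleGraph V} {S : Finset V} {v : V} (hv : v ∈ S)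
    (hli : LinearIndepOn ℝ (fun w => p v - p w) (nb G S v : Set V)) :
    rk p G S = rk p G (S.erase v) + (nb G S v).card := by
  unfold rk
  have hli' : LinearIndepOn ℝ (fun w => row p v w) (nb G S v : Set V) := by
    refine LinearIndepOn.of_comp (ev v) ?_
    refine hli.congr fun w hw => ?_
    have h : v ≠ w := (mem_nb.1 hw).2.ne
    show _ = (ev v) (row p v w)
    rw [ev_apply, row_apply_left p h]
  have hinf : rs p G (S.erase v) ⊓
      Submodule.span ℝ ((fun w => row p v w) '' (nb G S v : Set V)) = ⊥ := by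
    rw [eq_bot_iff]
    rintro z ⟨h1, h2⟩
    have h3 : z v = 0 := rs_supp h1 (by simp)
    have h4 : z ∈ (⊥ : Submodule ℝ (V → Fin 3 → ℝ)) := by
      refine zex_aux (ev v) ⊥ (fun y hy => ?_) _ _ ?_ (Submodule.mem_sup_right h2) h3
      · rw [(Submodule.mem_bot ℝ).1 hy, map_zero]
      · refine hli.congr fun w hw => ?_
        have h : v ≠ w := (mem_nb.1 hw).2.ne
        rw [ev_apply, row_apply_left p h]
    exact h4
  have h5 := Submodule.finrank_sup_add_finrank_inf_eq (rs p G (S.erase v))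
    (Submodule.span ℝ ((fun w => row p v w) '' (nb G S v : Set V)))
  rw [hinf, finrank_bot, add_zero, ← rs_vertex p G hv] at h5
  rw [h5]
  congr 1
  have h6 : Submodule.span ℝ ((fun w => row p v w) '' (nb G S v : Set V)) =
      Submodule.span ℝ (Set.range fun w : (nb G S v : Set V) => row p v w) := by
    congr 1
    ext x
    simp
  rw [h6, finrank_span_eq_card hli'.linearIndependent]
  simp

/-- independence of at most three differences, in general position -/
theorem indep_of_gp {p : V → Fin 3 → ℝ} (hp : GP p) {v : V} {N : Finset V} (hv : v ∉ N)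
    (hN : N.card ≤ 3) : LinearIndepOn ℝ (fun w => p v - p w) (N : Set V) := by
  obtain ⟨k, hk⟩ : ∃ k, N.card = k := ⟨_, rfl⟩
  have hk3 : k ≤ 3 := hk ▸ hN
  interval_cases k
  · rw [Finset.card_eq_zero] at hk
    subst hk
    simp
  · obtain ⟨a, rfl⟩ := Finset.card_eq_one.1 hk
    have ha : v ≠ a := by simpa using hv
    rw [Finset.coe_singleton, linearIndepOn_singleton_iff]
    exact sub_ne_zero.2 (hp.two _ _ ha)
  · obtain ⟨a, b, hab, rfl⟩ := Finset.card_eq_two.1 hk
    simp only [Finset.mem_insert, Finset.mem_singleton, not_or] at hv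
    have : LinearIndependent ℝ (fun i : Fin 2 => p v - p (![a, b] i)) := by
      rw [Fintype.linearIndependent_iff]
      intro g hg
      rw [Fin.sum_univ_two] at hg
      simp only [Matrix.cons_val_zero, Matrix.cons_val_one] at hg
      have h1 := hp.three v a b hv.1 hv.2 hab (-(g 0)) (-(g 1)) (by
        rw [← hg]
        module)
      intro i
      fin_cases i
      · simpa using h1.1
      · simpa using h1.2
    have h2 : LinearIndepOn ℝ (fun w => p v - p w) (Set.range (![a, b] : Fin 2 → V)) := by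
      have hinj : Function.Injective (![a, b] : Fin 2 → V) := by
        intro i j hij
        fin_cases i <;> fin_cases j <;> simp_all
      rw [linearIndepOn_range_iff hinj]
      exact this
    refine h2.mono ?_
    intro x hx
    simp only [Finset.coe_insert, Finset.coe_singleton, Set.mem_insert_iff,
      Set.mem_singleton_iff] at hx
    rcases hx with rfl | rfl
    · exact ⟨0, rfl⟩
    · exact ⟨1, rfl⟩
  · obtain ⟨a, b, c, hab, hac, hbc, rfl⟩ := Finset.card_eq_three.1 hk
    simp only [Finset.mem_insert, Finset.mem_singleton, not_or] at hv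
    have : LinearIndependent ℝ (fun i : Fin 3 => p v - p (![a, b, c] i)) := by
      rw [Fintype.linearIndependent_iff]
      intro g hg
      rw [Fin.sum_univ_three] at hg
      simp only [Matrix.cons_val_zero, Matrix.cons_val_one, Matrix.cons_val] at hg
      have h1 := hp.four v a b c hv.1 hv.2.1 hv.2.2 hab hac hbc (-(g 0)) (-(g 1)) (-(g 2)) (by
        rw [← hg]
        module)
      intro i
      fin_cases i
      · simpa using h1.1
      · simpa using h1.2.1
      · simpa using h1.2.2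
    have h2 : LinearIndepOn ℝ (fun w => p v - p w) (Set.range (![a, b, c] : Fin 3 → V)) := by
      have hinj : Function.Injective (![a, b, c] : Fin 3 → V) := by
        intro i j hij
        fin_cases i <;> fin_cases j <;> simp_all
      rw [linearIndepOn_range_iff hinj]
      exact this
    refine h2.mono ?_
    intro x hx
    simp only [Finset.coe_insert, Finset.coe_singleton, Set.mem_insert_iff,
      Set.mem_singleton_iff] at hx
    rcases hx with rfl | rfl | rfl
    · exact ⟨0, rfl⟩
    · exact ⟨1, rfl⟩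
    · exact ⟨2, rfl⟩

theorem not_mem_nb (G : SimpleGraph V) (S : Finset V) (v : V) : v ∉ nb G S v := fun h =>
  (mem_nb.1 h).2.ne rfl

/-- (0) adding a vertex with `k ≤ 3` neighbours adds `k` to the rank -/
theorem zex {p : V → Fin 3 → ℝ} (hp : GP p) {G : SimpleGraph V} {S : Finset V} {v : V}
    (hv : v ∈ S) (h3 : (nb G S v).card ≤ 3) :
    rk p G S = rk p G (S.erase v) + (nb G S v).card ∧
      ∀ z ∈ rs p G S, z v = 0 → z ∈ rs p G (S.erase v) :=
  ⟨zex_rank hv (indep_of_gp hp (not_mem_nb G S v) h3), fun z hz h0 =>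
    zex_mem hv (indep_of_gp hp (not_mem_nb G S v) h3) hz h0⟩

theorem zex_imp {p : V → Fin 3 → ℝ} (hp : GP p) {G : SimpleGraph V} {S : Finset V} {v : V}
    (hv : v ∈ S) (h3 : (nb G S v).card ≤ 3) {x y : V} (hx : x ≠ v) (hy : y ≠ v) :
    row p x y ∈ rs p G S ↔ row p x y ∈ rs p G (S.erase v) :=
  ⟨fun h => (zex hp hv h3).2 _ h (row_apply_of_ne p hx.symm hy.symm),
    fun h => rs_mono (erase_subset _ _) (fun _ _ _ _ h => h) h⟩

/-! ### Cliques -/

/-- in a clique, all rows at `v` follow from three of them -/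
theorem clq_vertex {p : V → Fin 3 → ℝ} (hp : GP p) {L : Finset V} {v a b c : V} (hv : v ∈ L)
    (ha : a ∈ L) (hb : b ∈ L) (hc : c ∈ L) (hva : v ≠ a) (hvb : v ≠ b) (hvc : v ≠ c) (hab : a ≠ b)
    (hac : a ≠ c) (hbc : b ≠ c) :
    rs p ⊤ L = rs p ⊤ (L.erase v) ⊔ Submodule.span ℝ {row p v a, row p v b, row p v c} := by
  have hadj : ∀ x y : V, x ≠ y → (⊤ : SimpleGraph V).Adj x y := fun x y h => h
  apply le_antisymm
  · rw [rs_vertex p ⊤ hv, sup_le_iff]
    refine ⟨le_sup_left, ?_⟩
    rw [Submodule.span_le]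
    rintro _ ⟨w, hw, rfl⟩
    obtain ⟨hw, hvw⟩ := mem_nb.1 hw
    have hvw : v ≠ w := hvw.ne
    by_cases h1 : w = a
    · subst h1
      exact Submodule.mem_sup_right (Submodule.subset_span (by simp))
    by_cases h2 : w = b
    · subst h2
      exact Submodule.mem_sup_right (Submodule.subset_span (by simp))
    by_cases h3 : w = c
    · subst h3
      exact Submodule.mem_sup_right (Submodule.subset_span (by simp))
    have h5 := H30.k5dep V p hp v w a b c hvw hva hvb hvc h1 h2 h3 hab hac hbc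
    refine (Submodule.span_le.2 ?_) h5
    have e : ∀ x y : V, x ∈ L → y ∈ L → x ≠ v → y ≠ v → x ≠ y →
        row p x y ∈ rs p ⊤ (L.erase v) ⊔ Submodule.span ℝ {row p v a, row p v b, row p v c} :=
      fun x y hx hy hxv hyv hxy => Submodule.mem_sup_left
        (row_mem_rs (mem_erase.2 ⟨hxv, hx⟩) (mem_erase.2 ⟨hyv, hy⟩) (hadj x y hxy))
    rintro x hx
    simp only [Set.mem_insert_iff, Set.mem_singleton_iff] at hx
    rcases hx with rfl | rfl | rfl | rfl | rfl | rfl | rfl | rfl | rfl
    · exact Submodule.mem_sup_right (Submodule.subset_span (by simp))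
    · exact Submodule.mem_sup_right (Submodule.subset_span (by simp))
    · exact Submodule.mem_sup_right (Submodule.subset_span (by simp))
    · exact e _ _ hw ha hvw.symm hva.symm h1
    · exact e _ _ hw hb hvw.symm hvb.symm h2
    · exact e _ _ hw hc hvw.symm hvc.symm h3
    · exact e _ _ ha hb hva.symm hvb.symm hab
    · exact e _ _ ha hc hva.symm hvc.symm hac
    · exact e _ _ hb hc hvb.symm hvc.symm hbc
  · rw [sup_le_iff]
    refine ⟨rs_mono (erase_subset _ _) fun _ _ _ _ h => h, ?_⟩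
    rw [Submodule.span_le]
    rintro x hx
    simp only [Set.mem_insert_iff, Set.mem_singleton_iff] at hx
    rcases hx with rfl | rfl | rfl
    · exact row_mem_rs hv ha (hadj _ _ hva)
    · exact row_mem_rs hv hb (hadj _ _ hvb)
    · exact row_mem_rs hv hc (hadj _ _ hvc)

/-- one step of the clique lemma -/
theorem clq_step {p : V → Fin 3 → ℝ} (hp : GP p) {L : Finset V} (hL : 4 ≤ L.card) {v : V}
    (hv : v ∈ L) {z : V → Fin 3 → ℝ} (hz : z ∈ rs p ⊤ L) (h0 : z v = 0) :
    z ∈ rs p ⊤ (L.erase v) ∧ rk p ⊤ L = rk p ⊤ (L.erase v) + 3 := by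
  have h1 : 3 ≤ (L.erase v).card := by
    rw [Finset.card_erase_of_mem hv]; omega
  obtain ⟨N, hN, hNc⟩ := Finset.exists_subset_card_eq h1
  obtain ⟨a, b, c, hab, hac, hbc, rfl⟩ := Finset.card_eq_three.1 hNc
  have ha := mem_erase.1 (hN (by simp : a ∈ ({a, b, c} : Finset V)))
  have hb := mem_erase.1 (hN (by simp : b ∈ ({a, b, c} : Finset V)))
  have hc := mem_erase.1 (hN (by simp : c ∈ ({a, b, c} : Finset V)))
  have hvN : v ∉ ({a, b, c} : Finset V) := fun h => (mem_erase.1 (hN h)).1 rfl
  have hli := indep_of_gp hp hvN (by rw [hNc])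
  have himg : ({row p v a, row p v b, row p v c} : Set (V → Fin 3 → ℝ)) =
      (fun w => row p v w) '' (({a, b, c} : Finset V) : Set V) := by
    simp only [Finset.coe_insert, Finset.coe_singleton, Set.image_insert_eq, Set.image_singleton]
  have hsp := clq_vertex hp hv ha.2 hb.2 hc.2 ha.1.symm hb.1.symm hc.1.symm hab hac hbc
  rw [himg] at hsp
  have hli2 : LinearIndepOn ℝ (fun w => (ev v) (row p v w)) (({a, b, c} : Finset V) : Set V) := by
    refine hli.congr fun w hw => ?_
    have h : v ≠ w := fun e => hvN (e ▸ hw)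
    show _ = (ev v) (row p v w)
    rw [ev_apply, row_apply_left p h]
  constructor
  · rw [hsp] at hz
    exact zex_aux (ev v) _ (fun y hy => rs_supp hy (by simp)) _ _ hli2 hz h0
  · have hli' : LinearIndepOn ℝ (fun w => row p v w) (({a, b, c} : Finset V) : Set V) :=
      LinearIndepOn.of_comp (ev v) hli2
    have hinf : rs p ⊤ (L.erase v) ⊓
        Submodule.span ℝ ((fun w => row p v w) '' (({a, b, c} : Finset V) : Set V)) = ⊥ := by
      rw [eq_bot_iff]
      rintro y ⟨h1, h2⟩
      have h3 : y v = 0 := rs_supp h1 (by simp)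
      refine zex_aux (ev v) ⊥ (fun y hy => ?_) _ _ hli2 (Submodule.mem_sup_right h2) h3
      rw [(Submodule.mem_bot ℝ).1 hy, map_zero]
    have h5 := Submodule.finrank_sup_add_finrank_inf_eq (rs p ⊤ (L.erase v))
      (Submodule.span ℝ ((fun w => row p v w) '' (({a, b, c} : Finset V) : Set V)))
    rw [hinf, finrank_bot, add_zero, ← hsp] at h5
    unfold rk
    rw [h5]
    congr 1
    have h6 : Submodule.span ℝ ((fun w => row p v w) '' (({a, b, c} : Finset V) : Set V)) =
        Submodule.span ℝ (Set.range fun w : (({a, b, c} : Finset V) : Set V) => row p v w) := by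
      congr 1
      ext x
      simp
    rw [h6, finrank_span_eq_card hli'.linearIndependent]
    simp [hNc]

/-- an element of the row space of a clique which is supported on `T` comes from the clique on `T`
-/
theorem clq {p : V → Fin 3 → ℝ} (hp : GP p) {T : Finset V} (hT : 3 ≤ T.card) :
    ∀ {L : Finset V}, T ⊆ L → ∀ {z : V → Fin 3 → ℝ}, z ∈ rs p ⊤ L → (∀ w, w ∉ T → z w = 0) →
      z ∈ rs p ⊤ T := by
  intro L
  induction L using Finset.strongInduction with
  | H L ih =>
    intro hTL z hz h0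
    by_cases h : L = T
    · rwa [← h]
    · obtain ⟨v, hvL, hvT⟩ : ∃ v ∈ L, v ∉ T := by
        by_contra hcon
        push Not at hcon
        exact h (Finset.Subset.antisymm hcon hTL)
      have hcard : T.card < L.card := Finset.card_lt_card ⟨hTL, fun h' => hvT (h' hvL)⟩
      have h1 := (clq_step hp (by omega) hvL hz (h0 v hvT)).1
      exact ih (L.erase v) (Finset.erase_ssubset hvL)
        (fun x hx => mem_erase.2 ⟨fun e => hvT (e ▸ hx), hTL hx⟩) h1 h0

/-- (R1) the rank of a triangle is 3 -/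
theorem rk_three {p : V → Fin 3 → ℝ} (hp : GP p) {a b c : V} (hab : a ≠ b) (hac : a ≠ c)
    (hbc : b ≠ c) : rk p ⊤ ({a, b, c} : Finset V) = 3 := by
  have hadj : ∀ x y : V, x ≠ y → (⊤ : SimpleGraph V).Adj x y := fun x y h => h
  have h1 : (nb ⊤ ({a, b, c} : Finset V) a) = {b, c} := by
    ext x
    rw [mem_nb]
    simp only [Finset.mem_insert, Finset.mem_singleton, SimpleGraph.top_adj]
    constructor
    · rintro ⟨rfl | h | h, h'⟩
      · exact absurd rfl h'
      · exact Or.inl h
      · exact Or.inr h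
    · rintro (rfl | rfl)
      · exact ⟨Or.inr (Or.inl rfl), hab⟩
      · exact ⟨Or.inr (Or.inr rfl), hac⟩
  have h2 : (({a, b, c} : Finset V).erase a) = {b, c} := by
    rw [Finset.erase_insert]
    simp [hab, hac]
  have h3 : (nb ⊤ ({b, c} : Finset V) b) = {c} := by
    ext x
    rw [mem_nb]
    simp only [Finset.mem_insert, Finset.mem_singleton, SimpleGraph.top_adj]
    constructor
    · rintro ⟨rfl | h, h'⟩
      · exact absurd rfl h'
      · exact h
    · rintro rfl
      exact ⟨Or.inr rfl, hbc⟩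
  have h4 : (({b, c} : Finset V).erase b) = {c} := by
    rw [Finset.erase_insert]
    simp [hbc]
  have h5 : rk p ⊤ ({c} : Finset V) = 0 := by
    have : rs p ⊤ ({c} : Finset V) = ⊥ := by
      rw [eq_bot_iff]
      unfold rs
      rw [Submodule.span_le]
      rintro _ ⟨u, hu, v, hv, ha, rfl⟩
      rw [Finset.mem_singleton] at hu hv
      exact absurd (hu.trans hv.symm) ha
    unfold rk
    rw [this, finrank_bot]
  have e1 := (zex hp (G := ⊤) (S := {a, b, c}) (v := a) (by simp) (by
    rw [h1]; exact (Finset.card_le_two).trans (by norm_num))).1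
  have e2 := (zex hp (G := ⊤) (S := {b, c}) (v := b) (by simp) (by
    rw [h3]; simp)).1
  rw [h2, h1, Finset.card_pair hbc] at e1
  rw [h4, h3, h5, Finset.card_singleton] at e2
  rw [e1, e2]

/-- (R1) the rank of a clique -/
theorem rk_clique {p : V → Fin 3 → ℝ} (hp : GP p) {L : Finset V} (hL : 3 ≤ L.card) :
    rk p ⊤ L + 6 = 3 * L.card := by
  induction L using Finset.strongInduction with
  | H L ih =>
    rcases Nat.lt_or_ge 3 L.card with h | h
    · obtain ⟨v, hv⟩ : L.Nonempty := Finset.card_pos.1 (by omega)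
      have h1 := (clq_step hp (by omega) hv (zero_mem (rs p ⊤ L)) rfl).2
      have h2 := ih (L.erase v) (Finset.erase_ssubset hv) (by
        rw [Finset.card_erase_of_mem hv]; omega)
      rw [Finset.card_erase_of_mem hv] at h2
      omega
    · obtain ⟨a, b, c, hab, hac, hbc, rfl⟩ := Finset.card_eq_three.1 (le_antisymm h hL)
      rw [rk_three hp hab hac hbc, le_antisymm h hL]

/-- (R1) the rank is at most `3 n - 6` -/
theorem rk_le {p : V → Fin 3 → ℝ} (hp : GP p) (G : SimpleGraph V) {S : Finset V}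
    (hS : 3 ≤ S.card) : rk p G S + 6 ≤ 3 * S.card := by
  have h := rk_clique hp hS
  have h2 : rk p G S ≤ rk p ⊤ S := rk_mono subset_rfl fun _ _ _ _ h => h.ne
  omega

/-! ### Gluing along three vertices -/

/-- `G` with the clique on `T` -/
def addK (G : SimpleGraph V) (T : Finset V) : SimpleGraph V where
  Adj a b := G.Adj a b ∨ (a ≠ b ∧ a ∈ T ∧ b ∈ T)
  symm := ⟨fun _ _ h => h.elim (fun h => Or.inl h.symm) fun h => Or.inr ⟨h.1.symm, h.2.2, h.2.1⟩⟩
  loopless := ⟨fun _ h => h.elim (fun h => h.ne rfl) fun h => h.1 rfl⟩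

theorem rs_addK (p : V → Fin 3 → ℝ) (G : SimpleGraph V) {S T : Finset V} (hT : T ⊆ S) :
    rs p (addK G T) S = rs p G S ⊔ rs p ⊤ T := by
  apply le_antisymm
  · conv_lhs => unfold rs
    rw [Submodule.span_le]
    rintro _ ⟨u, hu, v, hv, h | ⟨h1, h2, h3⟩, rfl⟩
    · exact Submodule.mem_sup_left (row_mem_rs hu hv h)
    · exact Submodule.mem_sup_right (row_mem_rs h2 h3 h1)
  · rw [sup_le_iff]
    constructor
    · exact rs_mono subset_rfl fun _ _ _ _ h => Or.inl h
    · exact rs_mono hT fun u hu v hv h => Or.inr ⟨h, hu, hv⟩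

/-- (R7) an element of the row space of `G[R ∪ L]` supported on `R` is in that of `R + K_T` -/
theorem glue_mem {p : V → Fin 3 → ℝ} (hp : GP p) {G : SimpleGraph V} {R L : Finset V}
    (hsep : Sep G R L) (hT : 3 ≤ (R ∩ L).card) {z : V → Fin 3 → ℝ} (hz : z ∈ rs p G (R ∪ L))
    (h0 : ∀ w, w ∉ R → z w = 0) : z ∈ rs p G R ⊔ rs p ⊤ (R ∩ L) := by
  rw [rs_union hsep] at hz
  obtain ⟨r, hr, l, hl, rfl⟩ := Submodule.mem_sup.1 hz
  have h1 : l ∈ rs p ⊤ L := rs_mono subset_rfl (fun _ _ _ _ h => h.ne) hl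
  have h2 : l ∈ rs p ⊤ (R ∩ L) := by
    refine clq hp hT Finset.inter_subset_right h1 fun w hw => ?_
    by_cases hwL : w ∈ L
    · have hwR : w ∉ R := fun h => hw (Finset.mem_inter.2 ⟨h, hwL⟩)
      have h3 := h0 w hwR
      rw [Pi.add_apply, rs_supp hr hwR, zero_add] at h3
      exact h3
    · exact rs_supp hl hwL
  exact add_mem (Submodule.mem_sup_left hr) (Submodule.mem_sup_right h2)

/-- (R7) the ranks -/
theorem glue_rank {p : V → Fin 3 → ℝ} (hp : GP p) {G : SimpleGraph V} {R L : Finset V}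
    (hsep : Sep G R L) (hT : (R ∩ L).card = 3) :
    rk p (addK G (R ∩ L)) (R ∪ L) + 3 =
      rk p (addK G (R ∩ L)) R + rk p (addK G (R ∩ L)) L ∧
    rk p G (R ∪ L) + Module.finrank ℝ (rs p G R ⊓ rs p G L : Submodule ℝ (V → Fin 3 → ℝ)) =
      rk p G R + rk p G L ∧
    rs p G R ⊓ rs p G L ≤ rs p ⊤ (R ∩ L) := by
  have hsep' : Sep (addK G (R ∩ L)) R L := by
    rintro a ha ha' b hb hb' (h | ⟨-, h, -⟩)
    · exact hsep a ha ha' b hb hb' h
    · exact ha' (Finset.mem_inter.1 h).2
  have key : ∀ H : SimpleGraph V, rs p H R ⊓ rs p H L ≤ rs p ⊤ (R ∩ L) := by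
    intro H z hz
    refine clq hp hT.ge Finset.inter_subset_right
      (rs_mono subset_rfl (fun _ _ _ _ h => h.ne) hz.2 : z ∈ rs p ⊤ L) fun w hw => ?_
    by_cases hwR : w ∈ R
    · exact rs_supp hz.2 fun h => hw (Finset.mem_inter.2 ⟨hwR, h⟩)
    · exact rs_supp hz.1 hwR
  refine ⟨?_, ?_, key G⟩
  · have h1 : rs p (addK G (R ∩ L)) R ⊓ rs p (addK G (R ∩ L)) L = rs p ⊤ (R ∩ L) := by
      refine le_antisymm (key _) (le_inf ?_ ?_)
      · exact rs_mono Finset.inter_subset_left fun u hu v hv h => Or.inr ⟨h, hu, hv⟩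
      · exact rs_mono Finset.inter_subset_right fun u hu v hv h => Or.inr ⟨h, hu, hv⟩
    have h2 := Submodule.finrank_sup_add_finrank_inf_eq (rs p (addK G (R ∩ L)) R)
      (rs p (addK G (R ∩ L)) L)
    have h3 := rk_clique hp (L := R ∩ L) hT.ge
    rw [h1, ← rs_union hsep'] at h2
    unfold rk at h3 ⊢
    omega
  · have h2 := Submodule.finrank_sup_add_finrank_inf_eq (rs p G R) (rs p G L)
    rw [← rs_union hsep] at h2
    exact h2

end Pool.Agent.Xu.X2.H40
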