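import Pool.Agent.Lib.MP_144d21_co.X2.IfaceS
import Pool.Agent.Lib.MP_144d21_co.X2.H40.Rig

/-!
# X2, modules KN, ZEX, GLUX, GLUR, SPLIT
-/

set_option autoImplicit false
set_option linter.unusedSectionVars false
set_option linter.unusedVariables false

namespace Pool.Agent.Xu.X2.H40

open Finset Pool.Agent.Xu

theorem rs_cl {V : Type} [Fintype V] [DecidableEq V] (p : V → Fin 3 → ℝ) (S : Finset V) :
    rs p (cl S) S = rs p ⊤ S := rs_congr p fun u hu v hv => ⟨fun h => h.1, fun h => ⟨h, hu, hv⟩⟩

/-- the row space after adding a clique -/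
theorem rs_sup_cl {V : Type} [Fintype V] [DecidableEq V] (p : V → Fin 3 → ℝ) (G : SimpleGraph V)
    {S T : Finset V} (hT : T ⊆ S) : rs p (G ⊔ cl T) S = rs p G S ⊔ rs p ⊤ T := by
  apply le_antisymm
  · conv_lhs => unfold rs
    rw [Submodule.span_le]
    rintro _ ⟨u, hu, v, hv, h | ⟨h1, h2, h3⟩, rfl⟩
    · exact Submodule.mem_sup_left (row_mem_rs hu hv h)
    · exact Submodule.mem_sup_right (row_mem_rs h2 h3 h1)
  · rw [sup_le_iff]
    constructor
    · exact rs_mono subset_rfl fun _ _ _ _ h => Or.inl h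
    · exact rs_mono hT fun u hu v hv h => Or.inr ⟨h, hu, hv⟩

/-- KN -/
theorem kn : KnS := by
  intro V _ _ p hp G S hS
  refine ⟨rk_le hp G hS, ?_⟩
  have h := rk_clique hp hS
  unfold rk at h ⊢
  rw [rs_cl]
  exact h

/-- ZEX -/
theorem zexS : ZexS := by
  intro V _ _ p hp G S v hv h3
  exact zex hp hv h3

theorem cut_sep {V : Type} [Fintype V] [DecidableEq V] {G : SimpleGraph V} {S T P Q : Finset V}
    (h : Cut3 G S T P Q) : Sep G (T ∪ P) (T ∪ Q) := by
  intro a ha ha' b hb hb'
  have h1 : a ∈ P := (Finset.mem_union.1 ha).resolve_left fun h' => ha' (Finset.mem_union_left _ h')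
  have h2 : b ∈ Q := (Finset.mem_union.1 hb).resolve_left fun h' => hb' (Finset.mem_union_left _ h')
  exact h.ne a h1 b h2

theorem cut_union {V : Type} [Fintype V] [DecidableEq V] {G : SimpleGraph V} {S T P Q : Finset V}
    (h : Cut3 G S T P Q) : (T ∪ P) ∪ (T ∪ Q) = S := by
  rw [← h.un]
  ext x
  simp only [Finset.mem_union]
  tauto

theorem cut_inter {V : Type} [Fintype V] [DecidableEq V] {G : SimpleGraph V} {S T P Q : Finset V}
    (h : Cut3 G S T P Q) : (T ∪ P) ∩ (T ∪ Q) = T := by
  ext x
  simp only [Finset.mem_inter, Finset.mem_union]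
  constructor
  · rintro ⟨h1 | h1, h2 | h2⟩
    · exact h1
    · exact h1
    · exact h2
    · exact absurd h2 (Finset.disjoint_left.1 h.pq h1)
  · intro h1
    exact ⟨Or.inl h1, Or.inl h1⟩

/-- GLUX -/
theorem glux : GluxS := by
  intro V _ _ p hp G S T P Q hc x hx h0
  rw [← cut_union hc, rs_union (cut_sep hc)] at hx
  obtain ⟨y, hy, z, hz, rfl⟩ := Submodule.mem_sup.1 hx
  refine ⟨y, hy, z, hz, ?_, rfl⟩
  rw [rs_cl]
  refine clq hp hc.card.ge (Finset.subset_union_left : T ⊆ T ∪ Q)
    (rs_mono subset_rfl (fun _ _ _ _ h => h.ne) hz) fun w hw => ?_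
  by_cases hwQ : w ∈ Q
  · have h1 := h0 w hwQ
    have h2 : y w = 0 := rs_supp hy fun h => by
      rcases Finset.mem_union.1 h with h | h
      · exact hw h
      · exact Finset.disjoint_left.1 hc.pq h hwQ
    rw [Pi.add_apply, h2, zero_add] at h1
    exact h1
  · exact rs_supp hz fun h => by
      rcases Finset.mem_union.1 h with h | h
      · exact hw h
      · exact hwQ h

theorem cut_notMem {V : Type} [Fintype V] [DecidableEq V] {G : SimpleGraph V} {S T P Q : Finset V}
    (h : Cut3 G S T P Q) {v : V} (hv : v ∈ Q) : v ∉ T ∪ P := fun h' => by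
  rcases Finset.mem_union.1 h' with h' | h'
  · exact Finset.disjoint_left.1 h.tq h' hv
  · exact Finset.disjoint_left.1 h.pq h' hv

/-- GLUR -/
theorem glur : GlurS := by
  intro V _ _ p hp G S T P Q hc a ha b hb hab
  obtain ⟨y, hy, z, -, hz, he⟩ := glux V p hp G S T P Q hc _ hab fun v hv =>
    row_apply_of_ne p (fun e => cut_notMem hc hv (e ▸ ha)) fun e => cut_notMem hc hv (e ▸ hb)
  rw [he, rs_sup_cl p G (Finset.subset_union_left : T ⊆ T ∪ P)]
  rw [rs_cl] at hz
  exact add_mem (Submodule.mem_sup_left hy) (Submodule.mem_sup_right hz)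

/-- SPLIT -/
theorem split (hfour : FourS) : SplitS := by
  intro V _ _ p hp G S T P Q hc x hx y hy hxy
  have hyR : y ∉ T ∪ P := cut_notMem hc hy
  have hyT : y ∉ T := fun h => hyR (Finset.mem_union_left _ h)
  have hxT : x ∉ T := fun h => Finset.disjoint_left.1 hc.tp h hx
  have hxy' : x ≠ y := fun e => hyR (e ▸ Finset.mem_union_right _ hx)
  -- the graph with `y` joined to `T`
  let G' : SimpleGraph V :=
    { Adj := fun a b => G.Adj a b ∧ a ∈ T ∪ P ∧ b ∈ T ∪ P
      symm := ⟨fun _ _ h => ⟨h.1.symm, h.2.2, h.2.1⟩⟩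
      loopless := ⟨fun _ h => h.1.ne rfl⟩ }
  set H : SimpleGraph V := G' ⊔ cl (insert y T) with hH
  set S' : Finset V := insert y (T ∪ P) with hS'
  have hnb : nb H S' y = T := by
    ext w
    rw [mem_nb]
    constructor
    · rintro ⟨-, h | ⟨h1, -, h2⟩⟩
      · exact absurd h.2.1 hyR
      · rcases Finset.mem_insert.1 h2 with h2 | h2
        · exact absurd h2.symm h1
        · exact h2
    · intro hw
      refine ⟨Finset.mem_insert_of_mem (Finset.mem_union_left _ hw), Or.inr ⟨?_, ?_, ?_⟩⟩
      · exact fun e => hyT (e ▸ hw)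
      · exact Finset.mem_insert_self _ _
      · exact Finset.mem_insert_of_mem hw
  have hrow : row p y x ∈ rs p H S' := by
    rw [row_comm]
    rw [← cut_union hc, rs_union (cut_sep hc)] at hxy
    obtain ⟨r, hr, l, hl, he⟩ := Submodule.mem_sup.1 hxy
    rw [← he]
    have h1 : l ∈ rs p ⊤ (insert y T) := by
      have hsub : insert y T ⊆ T ∪ Q := by
        intro w hw
        rcases Finset.mem_insert.1 hw with rfl | hw
        · exact Finset.mem_union_right _ hy
        · exact Finset.mem_union_left _ hw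
      refine clq hp.1 (T := insert y T) ?_ hsub
        (rs_mono subset_rfl (fun _ _ _ _ h => h.ne) hl) fun w hw => ?_
      · rw [Finset.card_insert_of_notMem hyT, hc.card]; norm_num
      · rw [Finset.mem_insert, not_or] at hw
        by_cases hwQ : w ∈ Q
        · have h2 : (r + l) w = row p x y w := by rw [he]
          have h3 : r w = 0 := rs_supp hr (cut_notMem hc hwQ)
          have h4 : row p x y w = 0 := row_apply_of_ne p
            (fun e => cut_notMem hc hwQ (by rw [e]; exact Finset.mem_union_right _ hx)) hw.1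
          rw [Pi.add_apply, h3, h4, zero_add] at h2
          exact h2
        · exact rs_supp hl fun h => by
            rcases Finset.mem_union.1 h with h | h
            · exact hw.2 h
            · exact hwQ h
    refine add_mem ?_ ?_
    · exact rs_mono (Finset.subset_insert _ _) (fun a ha b hb h => Or.inl ⟨h, ha, hb⟩) hr
    · refine rs_mono ?_ (fun a ha b hb h => Or.inr ⟨h, ha, hb⟩) h1
      intro w hw
      rcases Finset.mem_insert.1 hw with rfl | hw
      · exact Finset.mem_insert_self _ _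
      · exact Finset.mem_insert_of_mem (Finset.mem_union_left _ hw)
  have h5 := hfour V p hp H S' y x (Finset.mem_insert_self _ _)
    (Finset.mem_insert_of_mem (Finset.mem_union_right _ hx)) hxy' (by rw [hnb]; exact hxT)
    (by rw [hnb]; exact hc.card) hrow
  rw [hnb] at h5
  have he : S'.erase y = T ∪ P := Finset.erase_insert hyR
  rw [he] at h5
  refine ⟨h5.1, fun u hu v hv => ?_⟩
  have h6 := h5.2 u hu v hv
  refine rs_mono subset_rfl ?_ h6
  rintro a ha b hb (h | ⟨h1, h2, h3⟩)
  · exact Or.inl h.1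
  · refine Or.inr ⟨h1, ?_, ?_⟩
    · exact (Finset.mem_insert.1 h2).resolve_left fun e => hyR (e ▸ ha)
    · exact (Finset.mem_insert.1 h3).resolve_left fun e => hyR (e ▸ hb)

end Pool.Agent.Xu.X2.H40
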