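import Pool.Agent.Lib.MP_144d21_co.X2.H40.Kn

/-!
# X2, modules WRK, WCUT, DCUT
-/

set_option autoImplicit false
set_option linter.unusedSectionVars false
set_option linter.unusedVariables false

namespace Pool.Agent.Xu.X2.H40

open Finset Pool.Agent.Xu

/-! ### Annihilators in `Fin 3 → ℝ` -/

/-- the annihilator -/
noncomputable def pp (B : Submodule ℝ (Fin 3 → ℝ)) : Submodule ℝ (Fin 3 → ℝ) :=
  B.dualAnnihilator.comap (dotProductEquiv ℝ (Fin 3)).toLinearMap

theorem mem_pp {B : Submodule ℝ (Fin 3 → ℝ)} {ν : Fin 3 → ℝ} :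
    ν ∈ pp B ↔ ∀ c ∈ B, ∑ i, c i * ν i = 0 := by
  unfold pp
  rw [Submodule.mem_comap, Submodule.mem_dualAnnihilator]
  refine forall_congr' fun c => forall_congr' fun _ => ?_
  have : (dotProductEquiv ℝ (Fin 3)).toLinearMap ν c = ∑ i, c i * ν i := by
    show ν ⬝ᵥ c = _
    rw [dotProduct_comm]
    rfl
  rw [this]

theorem finrank_pp (B : Submodule ℝ (Fin 3 → ℝ)) :
    Module.finrank ℝ (pp B) + Module.finrank ℝ B = 3 := by
  have h1 : Module.finrank ℝ (pp B) = Module.finrank ℝ B.dualAnnihilator := by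
    unfold pp
    have := Submodule.comap_equiv_eq_map_symm (dotProductEquiv ℝ (Fin 3)) B.dualAnnihilator
    exact (congrArg (fun X : Submodule ℝ (Fin 3 → ℝ) => Module.finrank ℝ X) this).trans
      (LinearEquiv.finrank_map_eq _ _)
  have h2 := Subspace.finrank_add_finrank_dualAnnihilator_eq B
  rw [Module.finrank_fin_fun] at h2
  omega

theorem pp_sup (B C : Submodule ℝ (Fin 3 → ℝ)) : pp (B ⊔ C) = pp B ⊓ pp C := by
  ext ν
  rw [Submodule.mem_inf, mem_pp, mem_pp, mem_pp]
  constructor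
  · intro h
    exact ⟨fun c hc => h c (Submodule.mem_sup_left hc), fun c hc => h c (Submodule.mem_sup_right hc)⟩
  · rintro ⟨h1, h2⟩ c hc
    obtain ⟨b, hb, d, hd, rfl⟩ := Submodule.mem_sup.1 hc
    have e1 := h1 b hb
    have e2 := h2 d hd
    simp only [Pi.add_apply, add_mul, sum_add_distrib, e1, e2, add_zero]

/-- the coordinate subspace -/
def eI (I : Finset (Fin 3)) : Submodule ℝ (Fin 3 → ℝ) :=
  Submodule.span ℝ ((fun i => (Pi.single i (1 : ℝ) : Fin 3 → ℝ)) '' (I : Set (Fin 3)))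

theorem pp_eI (I : Finset (Fin 3)) : pp (eI I) =
    ⨅ i ∈ I, LinearMap.ker (LinearMap.proj i : (Fin 3 → ℝ) →ₗ[ℝ] ℝ) := by
  ext ν
  rw [mem_pp]
  simp only [Submodule.mem_iInf, LinearMap.mem_ker, LinearMap.proj_apply]
  constructor
  · intro h i hi
    have := h (Pi.single i 1) (Submodule.subset_span ⟨i, hi, rfl⟩)
    simpa [Pi.single_apply] using this
  · intro h c hc
    unfold eI at hc
    induction hc using Submodule.span_induction with
    | mem x hx =>
      obtain ⟨i, hi, rfl⟩ := hx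
      have := h i hi
      simpa [Pi.single_apply] using this
    | zero => simp
    | add x y _ _ hx hy =>
      simp only [Pi.add_apply, add_mul, sum_add_distrib, hx, hy, add_zero]
    | smul r x _ hx =>
      have : ∑ i, (r • x) i * ν i = r * ∑ i, x i * ν i := by
        rw [mul_sum]
        exact sum_congr rfl fun i _ => by simp only [Pi.smul_apply, smul_eq_mul]; ring
      rw [this, hx, mul_zero]

variable {V : Type} [Fintype V] [DecidableEq V]

/-- the combinations of the three rows -/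
noncomputable def ph (p : V → Fin 3 → ℝ) (t : Fin 3 → V) :
    (Fin 3 → ℝ) →ₗ[ℝ] (V → Fin 3 → ℝ) :=
  Fintype.linearCombination ℝ (fun i : Fin 3 => row p (t (i + 1)) (t (i + 2)))

theorem ph_apply (p : V → Fin 3 → ℝ) (t : Fin 3 → V) (c : Fin 3 → ℝ) :
    ph p t c = ∑ i, c i • row p (t (i + 1)) (t (i + 2)) := Fintype.linearCombination_apply ℝ _ c

theorem ph_single (p : V → Fin 3 → ℝ) (t : Fin 3 → V) (i : Fin 3) :
    ph p t (Pi.single i 1) = row p (t (i + 1)) (t (i + 2)) := by
  unfold ph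
  rw [Fintype.linearCombination_apply_single, one_smul]

theorem mem_tS {t : Fin 3 → V} {u : V} : u ∈ tS t ↔ ∃ a, t a = u := by
  unfold tS
  simp

theorem pair_idx {a b : Fin 3} (h : a ≠ b) :
    ∃ i : Fin 3, (a = i + 1 ∧ b = i + 2) ∨ (a = i + 2 ∧ b = i + 1) := by
  fin_cases a <;> fin_cases b <;> first | exact absurd rfl h | decide

theorem row_pair (p : V → Fin 3 → ℝ) (t : Fin 3 → V) {a b : Fin 3} (h : a ≠ b) :
    ∃ i : Fin 3, row p (t a) (t b) = row p (t (i + 1)) (t (i + 2)) := by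
  obtain ⟨i, ⟨rfl, rfl⟩ | ⟨rfl, rfl⟩⟩ := pair_idx h
  · exact ⟨i, rfl⟩
  · exact ⟨i, row_comm _ _ _⟩

theorem range_ph (p : V → Fin 3 → ℝ) {t : Fin 3 → V} (ht : Function.Injective t) :
    LinearMap.range (ph p t) = rs p ⊤ (tS t) := by
  unfold ph
  rw [Fintype.range_linearCombination]
  apply le_antisymm
  · rw [Submodule.span_le]
    rintro _ ⟨i, rfl⟩
    refine row_mem_rs (mem_tS.2 ⟨_, rfl⟩) (mem_tS.2 ⟨_, rfl⟩) ?_
    show t (i + 1) ≠ t (i + 2)
    refine ht.ne ?_
    fin_cases i <;> decide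
  · unfold rs
    rw [Submodule.span_le]
    rintro _ ⟨u, hu, v, hv, h, rfl⟩
    obtain ⟨a, rfl⟩ := mem_tS.1 hu
    obtain ⟨b, rfl⟩ := mem_tS.1 hv
    have hab : a ≠ b := fun e => h (by rw [e])
    obtain ⟨i, hi⟩ := row_pair p t hab
    rw [hi]
    exact Submodule.subset_span ⟨i, rfl⟩

theorem tS_card {t : Fin 3 → V} (ht : Function.Injective t) : (tS t).card = 3 := by
  unfold tS
  rw [Finset.card_image_of_injective _ ht]
  simp

theorem ph_inj {p : V → Fin 3 → ℝ} (hp : GP p) {t : Fin 3 → V} (ht : Function.Injective t) :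
    Function.Injective (ph p t) := by
  rw [← LinearMap.ker_eq_bot, ← Submodule.finrank_eq_zero (R := ℝ)]
  have h1 := LinearMap.finrank_range_add_finrank_ker (ph p t)
  have h2 : Module.finrank ℝ (LinearMap.range (ph p t)) = 3 := by
    rw [range_ph p ht]
    have := rk_clique hp (L := tS t) (tS_card ht).ge
    rw [tS_card ht] at this
    unfold rk at this
    omega
  rw [Module.finrank_fin_fun, h2] at h1
  omega

/-- the combinations of the three rows in the row space -/
noncomputable def aa (p : V → Fin 3 → ℝ) (G : SimpleGraph V) (S : Finset V) (t : Fin 3 → V) :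
    Submodule ℝ (Fin 3 → ℝ) := (rs p G S).comap (ph p t)

theorem mem_aa {p : V → Fin 3 → ℝ} {G : SimpleGraph V} {S : Finset V} {t : Fin 3 → V}
    {c : Fin 3 → ℝ} : c ∈ aa p G S t ↔ ph p t c ∈ rs p G S := Iff.rfl

theorem WW_eq (p : V → Fin 3 → ℝ) (G : SimpleGraph V) (S : Finset V) (t : Fin 3 → V) :
    WW p G S t = pp (aa p G S t) := by
  ext ν
  rw [mem_pp]
  refine forall_congr' fun c => ?_
  rw [mem_aa, ph_apply]

theorem WW_inf (p : V → Fin 3 → ℝ) (G : SimpleGraph V) (S : Finset V) (t : Fin 3 → V)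
    (I : Finset (Fin 3)) :
    WW p G S t ⊓ (⨅ i ∈ I, LinearMap.ker (LinearMap.proj i : (Fin 3 → ℝ) →ₗ[ℝ] ℝ)) =
      pp (aa p G S t ⊔ eI I) := by
  rw [pp_sup, WW_eq, pp_eI]

theorem rs_tE (p : V → Fin 3 → ℝ) (G : SimpleGraph V) {S : Finset V} {t : Fin 3 → V}
    (ht : Function.Injective t) (hS : tS t ⊆ S) (I : Finset (Fin 3)) :
    rs p (G ⊔ tE t I) S = rs p G S ⊔ (eI I).map (ph p t) := by
  have hmap : (eI I).map (ph p t) = Submodule.span ℝ
      ((fun i => row p (t (i + 1)) (t (i + 2))) '' (I : Set (Fin 3))) := by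
    unfold eI
    rw [Submodule.map_span, ← Set.image_comp]
    congr 1
    refine Set.image_congr fun i _ => ?_
    exact ph_single p t i
  rw [hmap]
  apply le_antisymm
  · conv_lhs => unfold rs
    rw [Submodule.span_le]
    rintro _ ⟨u, hu, v, hv, h | ⟨h1, i, hi, h | h⟩, rfl⟩
    · exact Submodule.mem_sup_left (row_mem_rs hu hv h)
    · obtain ⟨rfl, rfl⟩ := h
      exact Submodule.mem_sup_right (Submodule.subset_span ⟨i, hi, rfl⟩)
    · obtain ⟨rfl, rfl⟩ := h
      exact Submodule.mem_sup_right (Submodule.subset_span ⟨i, hi, row_comm _ _ _⟩)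
  · rw [sup_le_iff]
    constructor
    · exact rs_mono subset_rfl fun _ _ _ _ h => Or.inl h
    · rw [Submodule.span_le]
      rintro _ ⟨i, hi, rfl⟩
      refine row_mem_rs (hS (mem_tS.2 ⟨_, rfl⟩)) (hS (mem_tS.2 ⟨_, rfl⟩)) (Or.inr ?_)
      refine ⟨ht.ne ?_, i, hi, Or.inl ⟨rfl, rfl⟩⟩
      fin_cases i <;> decide

/-- dimension count -/
theorem rank_aux {M : Type} [AddCommGroup M] [Module ℝ M] [FiniteDimensional ℝ M]
    (φ : (Fin 3 → ℝ) →ₗ[ℝ] M) (hφ : Function.Injective φ) (U : Submodule ℝ M)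
    (E : Submodule ℝ (Fin 3 → ℝ)) :
    Module.finrank ℝ (U ⊔ E.map φ : Submodule ℝ M) + Module.finrank ℝ (U.comap φ) =
      Module.finrank ℝ U + Module.finrank ℝ (U.comap φ ⊔ E : Submodule ℝ (Fin 3 → ℝ)) := by
  have h1 : U ⊔ E.map φ = U ⊔ (U.comap φ ⊔ E).map φ := by
    rw [Submodule.map_sup, ← sup_assoc, sup_eq_left.2 (Submodule.map_comap_le φ U)]
  have h2 : U ⊓ (U.comap φ ⊔ E).map φ = (U.comap φ).map φ := by
    apply le_antisymm
    · rintro _ ⟨hx, c, hc, rfl⟩
      exact ⟨c, hx, rfl⟩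
    · rintro _ ⟨c, hc, rfl⟩
      exact ⟨hc, c, Submodule.mem_sup_left hc, rfl⟩
  have h3 := Submodule.finrank_sup_add_finrank_inf_eq U ((U.comap φ ⊔ E).map φ)
  rw [h2, ← h1] at h3
  have h4 : ∀ X : Submodule ℝ (Fin 3 → ℝ), Module.finrank ℝ (X.map φ) = Module.finrank ℝ X :=
    fun X => (Submodule.equivMapOfInjective φ hφ X).finrank_eq.symm
  rw [h4, h4] at h3
  exact h3

/-- WRK -/
theorem wrk : WrkS := by
  intro V _ _ p hp G S t ht hS
  have hφ := ph_inj hp ht
  refine ⟨fun I => ?_, fun I hI => ?_, fun ν hν i hi => ?_⟩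
  · have h1 := rank_aux (ph p t) hφ (rs p G S) (eI I)
    have h2 := rank_aux (ph p t) hφ (rs p G S) ⊤
    have h3 := finrank_pp (aa p G S t ⊔ eI I)
    rw [← WW_inf] at h3
    have h4 : (⊤ : Submodule ℝ (Fin 3 → ℝ)).map (ph p t) = rs p ⊤ (tS t) := by
      rw [Submodule.map_top, range_ph p ht]
    rw [h4, ← rs_sup_cl p G hS, sup_top_eq, finrank_top, Module.finrank_fin_fun] at h2
    rw [← rs_tE p G ht hS] at h1
    show Module.finrank ℝ (rs p (G ⊔ tE t I) S) + Module.finrank ℝ _ =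
      Module.finrank ℝ (rs p (G ⊔ cl (tS t)) S)
    change _ + _ = _ + Module.finrank ℝ (aa p G S t ⊔ eI I : Submodule ℝ (Fin 3 → ℝ)) at h1
    change _ + Module.finrank ℝ (aa p G S t) = _ at h2
    change _ + Module.finrank ℝ (aa p G S t) = _ at h1
    omega
  · have h1 : pp (aa p G S t ⊔ eI I) = ⊥ := by
      rw [← WW_inf, eq_bot_iff]
      rintro ν ⟨hν, hν'⟩
      have := hI ν hν fun i hi => by
        simp only [SetLike.mem_coe, Submodule.mem_iInf, LinearMap.mem_ker,
          LinearMap.proj_apply] at hν'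
        exact hν' i hi
      rw [this]
      exact zero_mem _
    have h2 := finrank_pp (aa p G S t ⊔ eI I)
    rw [h1, finrank_bot, zero_add] at h2
    have h3 : aa p G S t ⊔ eI I = ⊤ := by
      apply Submodule.eq_top_of_finrank_eq
      rw [h2, Module.finrank_fin_fun]
    refine ⟨hS, fun u hu v hv => ?_⟩
    obtain ⟨a, rfl⟩ := mem_tS.1 hu
    obtain ⟨b, rfl⟩ := mem_tS.1 hv
    by_cases hab : a = b
    · rw [hab, row_self]
      exact zero_mem _
    · obtain ⟨i, hi⟩ := row_pair p t hab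
      rw [hi, ← ph_single p t i, rs_tE p G ht hS]
      have h4 : (Pi.single i (1 : ℝ) : Fin 3 → ℝ) ∈ aa p G S t ⊔ eI I := by
        rw [h3]; exact Submodule.mem_top
      obtain ⟨c, hc, d, hd, he⟩ := Submodule.mem_sup.1 h4
      rw [← he, map_add]
      exact add_mem (Submodule.mem_sup_left hc)
        (Submodule.mem_sup_right (Submodule.mem_map_of_mem hd))
  · have h1 := hν (Pi.single i 1) (by
      rw [← ph_apply, ph_single]
      exact row_mem_rs (hS (mem_tS.2 ⟨_, rfl⟩)) (hS (mem_tS.2 ⟨_, rfl⟩)) hi)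
    simpa [Pi.single_apply] using h1

/-- WCUT -/
theorem wcut : WcutS := by
  intro V _ _ p hp G S T P Q t hc ht hT
  have hTP : T ∪ P ⊆ S := by rw [← hc.un]; exact Finset.subset_union_left
  have hTQ : T ∪ Q ⊆ S := by
    rw [← cut_union hc]; exact Finset.subset_union_right
  constructor
  · apply le_antisymm
    · intro ν hν
      exact ⟨fun c h => hν c (rs_mono hTP (fun _ _ _ _ h => h) h),
        fun c h => hν c (rs_mono hTQ (fun _ _ _ _ h => h) h)⟩
    · rintro ν ⟨h1, h2⟩ c h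
      have hsup : ∀ d : Fin 3 → ℝ, ∀ v ∉ T, (ph p t d) v = 0 := by
        intro d v hv
        have h3 : ph p t d ∈ rs p ⊤ (tS t) := by
          rw [← range_ph p ht]; exact ⟨d, rfl⟩
        exact rs_supp h3 (by rw [hT]; exact hv)
      rw [← ph_apply] at h
      obtain ⟨y, hy, z, hz, hz', he⟩ := glux V p hp G S T P Q hc _ h fun v hv =>
        hsup c v fun h' => Finset.disjoint_left.1 hc.tq h' hv
      rw [rs_cl, ← hT, ← range_ph p ht] at hz'
      obtain ⟨d, rfl⟩ := hz'
      have e1 : y = ph p t (c - d) := by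
        rw [map_sub, he, add_sub_cancel_right]
      rw [e1, ph_apply] at hy
      rw [ph_apply] at hz
      have e2 := h1 _ hy
      have e3 := h2 _ hz
      have e4 : ∑ i, c i * ν i = ∑ i, (c - d) i * ν i + ∑ i, d i * ν i := by
        rw [← sum_add_distrib]
        exact sum_congr rfl fun i _ => by simp only [Pi.sub_apply]; ring
      rw [e4, e2, e3, add_zero]
  · have hsep := cut_sep hc
    have hint := cut_inter hc
    have h1 := (glue_rank hp (G := G) (R := T ∪ P) (L := T ∪ Q) hsep (by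
      rw [hint]; exact hc.card)).1
    rw [hint, cut_union hc] at h1
    have e : ∀ X : Finset V, T ⊆ X → rk p (addK G T) X = rk p (G ⊔ cl T) X := by
      intro X hX
      unfold rk
      rw [rs_addK p G hX, rs_sup_cl p G hX]
    rw [e S (Finset.subset_union_left.trans hTP), e _ Finset.subset_union_left,
      e _ Finset.subset_union_left] at h1
    exact h1

/-- DCUT -/
theorem dcut : DcutS := by
  intro V _ _ p hp G S T P Q t hc ht hT
  have hTP : T ∪ P ⊆ S := by rw [← hc.un]; exact Finset.subset_union_left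
  have hTPs : tS t ⊆ T ∪ P := by rw [hT]; exact Finset.subset_union_left
  have hTS : tS t ⊆ S := hTPs.trans hTP
  have hcardS : S.card + 3 = (T ∪ P).card + (T ∪ Q).card := by
    have := Finset.card_union_add_card_inter (T ∪ P) (T ∪ Q)
    rw [cut_union hc, cut_inter hc, hc.card] at this
    exact this
  have hP3 : 3 ≤ (T ∪ P).card := hc.card ▸ Finset.card_le_card Finset.subset_union_left
  have hQ3 : 3 ≤ (T ∪ Q).card := hc.card ▸ Finset.card_le_card Finset.subset_union_left
  have hS3 : 3 ≤ S.card := hP3.trans (Finset.card_le_card hTP)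
  have hempty : ∀ G' : SimpleGraph V, G' ⊔ tE t ∅ = G' := by
    intro G'
    ext a b
    constructor
    · rintro (h | ⟨-, i, hi, -⟩)
      · exact h
      · exact absurd hi (Finset.notMem_empty i)
    · intro h
      exact Or.inl h
  constructor
  · obtain ⟨hw, hr⟩ := wcut V p hp G S T P Q t hc ht hT
    have h1 := (wrk V p hp G S t ht hTS).1 ∅
    rw [hempty, hw, hT] at h1
    have b1 := rk_le hp (G ⊔ cl T) hP3
    have b2 := rk_le hp (G ⊔ cl T) hQ3
    have b3 := rk_le hp (G ⊔ cl T) hS3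
    have b4 := rk_le hp G hS3
    unfold dd
    omega
  · intro I
    have h1 := (wrk V p hp G (T ∪ P) t ht hTPs).1 I
    rw [hT] at h1
    have b1 := rk_le hp (G ⊔ cl T) hP3
    have b2 := rk_le hp (G ⊔ tE t I) hP3
    unfold dd
    omega

end Pool.Agent.Xu.X2.H40
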