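import Pool.Agent.Lib.MP_144d21_co.X2.Defs
import Pool.Agent.Lib.MP_144d21_co.XU.H31.Pert

/-!
# X2, module GEN: a placement which maximises all ranks
-/

set_option autoImplicit false

namespace Pool.Agent.Xu.X2.H40

open Finset Polynomial Filter Topology Pool.Agent.Xu

/-- the rows of `A + t B` are independent for all but finitely many `t` -/
theorem finite_dep {ι m : Type} [Fintype ι] [DecidableEq ι] [Fintype m] (A B : Matrix ι m ℝ)
    (h : LinearIndependent ℝ (A + B).row) :
    {t : ℝ | ¬ LinearIndependent ℝ (A + t • B).row}.Finite := by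
  classical
  set P : Matrix ι m ℝ[X] := A.map C + (X : ℝ[X]) • B.map C with hP
  set D : ℝ[X] := (P * P.transpose).det with hD
  have hev : ∀ t : ℝ, D.eval t = ((A + t • B) * (A + t • B).transpose).det := by
    intro t
    have h2 := RingHom.map_det (evalRingHom t) (P * P.transpose)
    rw [coe_evalRingHom] at h2
    rw [hD, h2]
    congr 1
    have h3 : P.map (evalRingHom t) = A + t • B := by
      ext i j
      simp [hP]
      ring
    rw [RingHom.mapMatrix_apply, Matrix.map_mul, Matrix.transpose_map, h3]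
  have h1 : D.eval 1 ≠ 0 := by
    rw [hev, one_smul]
    intro h0
    obtain ⟨c, hc, hc0⟩ := Matrix.exists_vecMul_eq_zero_iff.2 h0
    have h4 : Matrix.vecMul c (A + B) = 0 := by
      rw [← dotProduct_self_eq_zero]
      have h5 : Matrix.vecMul c ((A + B) * (A + B).transpose) ⬝ᵥ c = 0 := by
        rw [hc0, zero_dotProduct]
      rw [← Matrix.vecMul_vecMul, ← Matrix.dotProduct_mulVec, Matrix.mulVec_transpose] at h5
      exact h5
    have h6 := (Matrix.vecMul_injective_iff.2 h) (a₁ := c) (a₂ := 0)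
      (by show Matrix.vecMul c (A + B) = Matrix.vecMul 0 (A + B); rw [h4, Matrix.zero_vecMul])
    exact hc h6
  have hD0 : D ≠ 0 := by
    intro h0
    rw [h0, eval_zero] at h1
    exact h1 rfl
  refine (D.roots.toFinset.finite_toSet).subset ?_
  intro t ht
  rw [Finset.mem_coe, Multiset.mem_toFinset, mem_roots hD0, IsRoot.def]
  by_contra hne
  apply ht
  rw [← Matrix.vecMul_injective_iff]
  intro c c' hcc
  have h7 : Matrix.vecMul (c - c') ((A + t • B) * (A + t • B).transpose) = 0 := by
    rw [← Matrix.vecMul_vecMul]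
    have : Matrix.vecMul (c - c') (A + t • B) = 0 := by
      rw [Matrix.sub_vecMul, sub_eq_zero]; exact hcc
    rw [this, Matrix.zero_vecMul]
  have h8 := Matrix.eq_zero_of_vecMul_eq_zero (by rw [← hev]; exact hne) h7
  exact sub_eq_zero.1 h8

variable {V : Type} [Fintype V] [DecidableEq V]

/-- along a line through `q` the rank is at least the rank at `q` for all but finitely many `t` -/
theorem finite_low (G : SimpleGraph V) (S : Finset V) (p q : V → Fin 3 → ℝ) :
    {t : ℝ | rk (fun v => p v + t • (q v - p v)) G S < rk q G S}.Finite := by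
  classical
  obtain ⟨b, hb, hspan, hli⟩ := exists_linearIndependent ℝ
    {x | ∃ u ∈ S, ∃ v ∈ S, G.Adj u v ∧ x = row q u v}
  have hfin : b.Finite := hli.setFinite
  have : Fintype b := hfin.fintype
  have hcard : Fintype.card b = rk q G S := by
    unfold rk rs
    rw [← hspan, ← finrank_span_eq_card hli, Subtype.range_coe]
  choose f hf using fun x : b => hb x.2
  have hex : ∀ x : b, ∃ v ∈ S, G.Adj (f x) v ∧ (x : V → Fin 3 → ℝ) = row q (f x) v :=
    fun x => (hf x).2
  choose g hg using hex
  -- flatten the rows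
  let e : (V → Fin 3 → ℝ) ≃ₗ[ℝ] (V × Fin 3 → ℝ) := (LinearEquiv.curry ℝ ℝ V (Fin 3)).symm
  let A : Matrix b (V × Fin 3) ℝ := fun x => e (row p (f x) (g x))
  let B : Matrix b (V × Fin 3) ℝ := fun x => e (row (fun v => q v - p v) (f x) (g x))
  have hAB : ∀ t : ℝ, (A + t • B).row =
      e ∘ fun x : b => row (fun v => p v + t • (q v - p v)) (f x) (g x) := by
    intro t
    funext x
    show A x + t • B x = _
    simp only [A, B, Function.comp]
    rw [← map_smul, ← map_add]
    congr 1
    funext w k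
    simp only [row, Pi.add_apply, Pi.smul_apply]
    by_cases h1 : w = f x <;> by_cases h2 : w = g x
    · subst h1
      have h3 : g x = f x := h2.symm
      simp [h3]
    · subst h1
      simp [Pi.single_eq_of_ne h2]
      ring
    · subst h2
      simp [Pi.single_eq_of_ne h1]
      ring
    · simp [Pi.single_eq_of_ne h1, Pi.single_eq_of_ne h2]
  have hLI : ∀ t : ℝ, LinearIndependent ℝ (A + t • B).row ↔
      LinearIndependent ℝ (fun x : b => row (fun v => p v + t • (q v - p v)) (f x) (g x)) := by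
    intro t
    rw [hAB t]
    exact LinearMap.linearIndependent_iff (e : (V → Fin 3 → ℝ) →ₗ[ℝ] (V × Fin 3 → ℝ))
      (LinearMap.ker_eq_bot.2 e.injective)
  have h1 : LinearIndependent ℝ (A + B).row := by
    have h := (hLI 1).2 ?_
    · rwa [one_smul] at h
    · have h2 : (fun x : b => row (fun v => p v + (1 : ℝ) • (q v - p v)) (f x) (g x)) =
          ((↑) : b → V → Fin 3 → ℝ) := by
        funext x
        rw [(hg x).2.2]
        congr 1
        funext v
        rw [one_smul]
        abel
      rw [h2]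
      exact hli
  refine (finite_dep A B h1).subset ?_
  intro t ht hcon
  rw [hLI t] at hcon
  have h3 : rk q G S ≤ rk (fun v => p v + t • (q v - p v)) G S := by
    rw [← hcard, ← finrank_span_eq_card hcon]
    unfold rk rs
    apply Submodule.finrank_mono
    rw [Submodule.span_le]
    rintro _ ⟨x, rfl⟩
    exact Submodule.subset_span ⟨f x, (hf x).1, g x, (hg x).1, (hg x).2.1, rfl⟩
  exact absurd h3 (not_le.2 ht)

theorem rk_le_dim (G : SimpleGraph V) (S : Finset V) (q : V → Fin 3 → ℝ) :
    rk q G S ≤ Module.finrank ℝ (V → Fin 3 → ℝ) := Submodule.finrank_le _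

/-- one placement maximises one rank -/
theorem exists_max (G : SimpleGraph V) (S : Finset V) :
    ∃ q : V → Fin 3 → ℝ, ∀ q', rk q' G S ≤ rk q G S := by
  classical
  have hb : BddAbove (Set.range fun q : V → Fin 3 → ℝ => rk q G S) :=
    ⟨_, by rintro _ ⟨q, rfl⟩; exact rk_le_dim G S q⟩
  obtain ⟨q, hq⟩ := Nat.sSup_mem (s := Set.range fun q : V → Fin 3 → ℝ => rk q G S)
    ⟨_, ⟨0, rfl⟩⟩ hb
  refine ⟨q, fun q' => ?_⟩
  have h1 : rk q G S = sSup (Set.range fun q : V → Fin 3 → ℝ => rk q G S) := hq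
  rw [h1]
  exact le_csSup hb ⟨q', rfl⟩

/-- one placement maximises finitely many ranks -/
theorem exists_max_finset (F : Finset (SimpleGraph V × Finset V)) :
    ∃ p : V → Fin 3 → ℝ, ∀ x ∈ F, ∀ q, rk q x.1 x.2 ≤ rk p x.1 x.2 := by
  classical
  induction F using Finset.induction_on with
  | empty => exact ⟨0, by simp⟩
  | insert x F _ ih =>
    obtain ⟨p, hp⟩ := ih
    obtain ⟨q, hq⟩ := exists_max x.1 x.2
    have h1 : ∀ᶠ t : ℝ in 𝓝 0, ∀ y ∈ F,
        rk p y.1 y.2 ≤ rk (fun v => p v + t • (q v - p v)) y.1 y.2 := by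
      rw [Filter.eventually_all_finset]
      intro y _
      exact H31.rk_semi V y.1 y.2 p fun v => q v - p v
    have h2 : ∀ᶠ t : ℝ in 𝓝[≠] 0,
        rk q x.1 x.2 ≤ rk (fun v => p v + t • (q v - p v)) x.1 x.2 := by
      have hf := finite_low x.1 x.2 p q
      have hcl : IsClosed ({t : ℝ | rk (fun v => p v + t • (q v - p v)) x.1 x.2 < rk q x.1 x.2}
          \ {0}) := (hf.subset Set.sdiff_subset).isClosed
      have h3 := hcl.isOpen_compl.mem_nhds (x := (0 : ℝ)) (by simp)
      filter_upwards [mem_nhdsWithin_of_mem_nhds h3, self_mem_nhdsWithin] with t ht ht0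
      by_contra hcon
      exact ht ⟨not_le.1 hcon, ht0⟩
    obtain ⟨t, ht1, ht2⟩ := ((h1.filter_mono nhdsWithin_le_nhds).and h2).exists
    refine ⟨fun v => p v + t • (q v - p v), fun y hy r => ?_⟩
    rcases Finset.mem_insert.1 hy with rfl | hy
    · exact (hq r).trans ht2
    · exact (hp y hy r).trans (ht1 y hy)

theorem gen (V : Type) [Fintype V] [DecidableEq V] : ∃ p : V → Fin 3 → ℝ, X2.Gen p := by
  classical
  obtain ⟨p0, hp0⟩ := exists_max_finset (univ : Finset (SimpleGraph V × Finset V))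
  obtain ⟨q, hq⟩ := H31.finite_not_gp V p0
  have h1 : ∀ᶠ t : ℝ in 𝓝[≠] 0, GP (fun v => p0 v + t • q v) := by
    have hcl : IsClosed ({t : ℝ | ¬ GP (fun v => p0 v + t • q v)} \ {0}) :=
      (hq.subset Set.sdiff_subset).isClosed
    have hmem := hcl.isOpen_compl.mem_nhds (x := (0 : ℝ)) (by simp)
    filter_upwards [mem_nhdsWithin_of_mem_nhds hmem, self_mem_nhdsWithin] with t ht ht0
    by_contra hcon
    exact ht ⟨hcon, ht0⟩
  have h2 : ∀ᶠ t : ℝ in 𝓝 0, ∀ y ∈ (univ : Finset (SimpleGraph V × Finset V)),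
      rk p0 y.1 y.2 ≤ rk (fun v => p0 v + t • q v) y.1 y.2 := by
    rw [Filter.eventually_all_finset]
    intro y _
    exact H31.rk_semi V y.1 y.2 p0 q
  obtain ⟨t, ht1, ht2⟩ := (h1.and (h2.filter_mono nhdsWithin_le_nhds)).exists
  exact ⟨_, ht1, fun r G S => (hp0 (G, S) (mem_univ _) r).trans (ht2 (G, S) (mem_univ _))⟩

/-- the same as `X2.Gen` -/
abbrev Gen (p : V → Fin 3 → ℝ) : Prop := X2.Gen p

end Pool.Agent.Xu.X2.H40
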