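import Pool.Agent.Lib.MP_144d21_co.X2.H40.Gen

/-!
# X2, module SYM: ranks under embeddings of the vertex set; the intrinsic generic rank
-/

set_option autoImplicit false
set_option linter.unusedSectionVars false
set_option linter.unusedVariables false

namespace Pool.Agent.Xu.X2.H40

open Finset Pool.Agent.Xu

variable {V W : Type} [Fintype V] [DecidableEq V] [Fintype W] [DecidableEq W]

/-- extension by zero -/
noncomputable def extL (f : V ↪ W) : (V → Fin 3 → ℝ) →ₗ[ℝ] (W → Fin 3 → ℝ) where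
  toFun x := Function.extend f x 0
  map_add' x y := by
    funext w
    by_cases h : ∃ v, f v = w
    · obtain ⟨v, rfl⟩ := h
      simp only [Pi.add_apply, f.injective.extend_apply]
    · simp only [Pi.add_apply, Function.extend_apply' _ _ _ h, Pi.zero_apply, add_zero]
  map_smul' r x := by
    funext w
    by_cases h : ∃ v, f v = w
    · obtain ⟨v, rfl⟩ := h
      simp only [Pi.smul_apply, f.injective.extend_apply, RingHom.id_apply]
    · simp only [Pi.smul_apply, Function.extend_apply' _ _ _ h, Pi.zero_apply, smul_zero]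

theorem extL_apply (f : V ↪ W) (x : V → Fin 3 → ℝ) (v : V) : extL f x (f v) = x v :=
  f.injective.extend_apply x 0 v

theorem extL_apply' (f : V ↪ W) (x : V → Fin 3 → ℝ) (w : W) (h : ¬ ∃ v, f v = w) :
    extL f x w = 0 := by
  show Function.extend f x 0 w = 0
  rw [Function.extend_apply' _ _ _ h]
  rfl

theorem extL_injective (f : V ↪ W) : Function.Injective (extL f) := by
  intro x y h
  funext v
  rw [← extL_apply f x v, ← extL_apply f y v, h]

theorem row_map (f : V ↪ W) (p : W → Fin 3 → ℝ) (u v : V) :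
    row p (f u) (f v) = extL f (row (p ∘ f) u v) := by
  funext w
  by_cases h : ∃ a, f a = w
  · obtain ⟨a, rfl⟩ := h
    rw [extL_apply]
    simp only [row, Pi.add_apply, Pi.single_apply, f.injective.eq_iff, Function.comp]
  · rw [extL_apply' f _ w h]
    have h1 : w ≠ f u := fun e => h ⟨u, e.symm⟩
    have h2 : w ≠ f v := fun e => h ⟨v, e.symm⟩
    simp only [row, Pi.add_apply, Pi.single_eq_of_ne h1, Pi.single_eq_of_ne h2, add_zero]

theorem rs_map (f : V ↪ W) (p : W → Fin 3 → ℝ) (G : SimpleGraph V) (S : Finset V) :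
    rs p (G.map f) (S.map f) = (rs (p ∘ f) G S).map (extL f) := by
  unfold rs
  rw [Submodule.map_span]
  congr 1
  ext x
  constructor
  · rintro ⟨u', hu', v', hv', ha, rfl⟩
    obtain ⟨u, hu, rfl⟩ := Finset.mem_map.1 hu'
    obtain ⟨v, hv, rfl⟩ := Finset.mem_map.1 hv'
    rw [SimpleGraph.map_adj_apply] at ha
    exact ⟨_, ⟨u, hu, v, hv, ha, rfl⟩, (row_map f p u v).symm⟩
  · rintro ⟨_, ⟨u, hu, v, hv, ha, rfl⟩, rfl⟩
    exact ⟨f u, Finset.mem_map_of_mem f hu, f v, Finset.mem_map_of_mem f hv,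
      SimpleGraph.map_adj_apply.2 ha, (row_map f p u v).symm⟩

theorem rk_map (f : V ↪ W) (p : W → Fin 3 → ℝ) (G : SimpleGraph V) (S : Finset V) :
    rk p (G.map f) (S.map f) = rk (p ∘ f) G S := by
  unfold rk
  rw [rs_map]
  exact (Submodule.equivMapOfInjective (extL f) (extL_injective f) _).finrank_eq.symm

/-- the row of `u v` is implied iff it is implied in the image -/
theorem row_mem_map (f : V ↪ W) (p : W → Fin 3 → ℝ) (G : SimpleGraph V) (S : Finset V) (u v : V) :
    row p (f u) (f v) ∈ rs p (G.map f) (S.map f) ↔ row (p ∘ f) u v ∈ rs (p ∘ f) G S := by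
  rw [rs_map, row_map]
  exact (extL_injective f).mem_set_image (s := (rs (p ∘ f) G S : Set (V → Fin 3 → ℝ)))

theorem gp_comp {p : W → Fin 3 → ℝ} (h : GP p) (f : V ↪ W) : GP (p ∘ f) where
  two a b hab := h.two _ _ (f.injective.ne hab)
  three a b c hab hac hbc := h.three _ _ _ (f.injective.ne hab) (f.injective.ne hac)
    (f.injective.ne hbc)
  four a b c d h1 h2 h3 h4 h5 h6 := h.four _ _ _ _ (f.injective.ne h1) (f.injective.ne h2)
    (f.injective.ne h3) (f.injective.ne h4) (f.injective.ne h5) (f.injective.ne h6)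

theorem gen_comp {p : W → Fin 3 → ℝ} (h : X2.Gen p) (f : V ↪ W) : X2.Gen (p ∘ f) := by
  refine ⟨gp_comp h.1 f, fun q G S => ?_⟩
  have h1 : (Function.extend f q 0 : W → Fin 3 → ℝ) ∘ f = q := by
    funext v
    exact f.injective.extend_apply q 0 v
  have h2 := h.2 (Function.extend f q 0) (G.map f) (S.map f)
  rw [rk_map, rk_map, h1] at h2
  exact h2

theorem gen_rk_eq {p q : V → Fin 3 → ℝ} (hp : X2.Gen p) (hq : X2.Gen q) (G : SimpleGraph V)
    (S : Finset V) : rk p G S = rk q G S := le_antisymm (hq.2 p G S) (hp.2 q G S)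

/-- the generic rank -/
noncomputable def gr (G : SimpleGraph V) (S : Finset V) : ℕ := rk (gen V).choose G S

theorem gen_rk_eq_gr {p : V → Fin 3 → ℝ} (hp : X2.Gen p) (G : SimpleGraph V) (S : Finset V) :
    rk p G S = gr G S := gen_rk_eq hp (gen V).choose_spec G S

theorem rk_le_gr (q : V → Fin 3 → ℝ) (G : SimpleGraph V) (S : Finset V) : rk q G S ≤ gr G S :=
  (gen V).choose_spec.2 q G S

theorem gr_map (f : V ↪ W) (G : SimpleGraph V) (S : Finset V) :
    gr (G.map f) (S.map f) = gr G S := by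
  have h := (gen W).choose_spec
  rw [← gen_rk_eq_gr h, rk_map, gen_rk_eq_gr (gen_comp h f)]

theorem gr_mono {G G' : SimpleGraph V} {S S' : Finset V} (hS : S ⊆ S')
    (h : ∀ u ∈ S, ∀ v ∈ S, G.Adj u v → G'.Adj u v) : gr G S ≤ gr G' S' := rk_mono hS h

theorem rs_congr (p : V → Fin 3 → ℝ) {G G' : SimpleGraph V} {S : Finset V}
    (h : ∀ u ∈ S, ∀ v ∈ S, (G.Adj u v ↔ G'.Adj u v)) : rs p G S = rs p G' S :=
  le_antisymm (rs_mono subset_rfl fun u hu v hv ha => (h u hu v hv).1 ha)
    (rs_mono subset_rfl fun u hu v hv ha => (h u hu v hv).2 ha)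

/-- the row space after adding an edge -/
theorem rs_add (p : V → Fin 3 → ℝ) (G : SimpleGraph V) (S : Finset V) {x y : V} (hx : x ∈ S)
    (hy : y ∈ S) : rs p (add G x y) S = rs p G S ⊔ Submodule.span ℝ {row p x y} := by
  apply le_antisymm
  · unfold rs
    rw [Submodule.span_le]
    rintro _ ⟨u, hu, v, hv, ha, rfl⟩
    rcases ha with ha | ⟨-, ⟨rfl, rfl⟩ | ⟨rfl, rfl⟩⟩
    · exact Submodule.mem_sup_left (Submodule.subset_span ⟨u, hu, v, hv, ha, rfl⟩)
    · exact Submodule.mem_sup_right (Submodule.mem_span_singleton_self _)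
    · rw [row_comm]
      exact Submodule.mem_sup_right (Submodule.mem_span_singleton_self _)
  · rw [sup_le_iff]
    refine ⟨rs_mono subset_rfl fun u _ v _ ha => Or.inl ha, ?_⟩
    rw [Submodule.span_singleton_le_iff_mem]
    by_cases hxy : x = y
    · subst hxy
      rw [row_self]
      exact zero_mem _
    · exact Submodule.subset_span ⟨x, hx, y, hy, Or.inr ⟨hxy, Or.inl ⟨rfl, rfl⟩⟩, rfl⟩

/-- a row is implied iff adding the edge does not change the rank -/
theorem row_mem_iff (p : V → Fin 3 → ℝ) (G : SimpleGraph V) (S : Finset V) {x y : V} (hx : x ∈ S)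
    (hy : y ∈ S) : row p x y ∈ rs p G S ↔ rk p (add G x y) S = rk p G S := by
  constructor
  · intro h
    unfold rk
    rw [rs_add p G S hx hy, sup_eq_left.2 ((Submodule.span_singleton_le_iff_mem _ _).2 h)]
  · intro h
    have h1 : rs p G S = rs p (add G x y) S :=
      Submodule.eq_of_le_of_finrank_eq (rs_mono subset_rfl fun u _ v _ ha => Or.inl ha) h.symm
    rw [h1, rs_add p G S hx hy]
    exact Submodule.mem_sup_right (Submodule.mem_span_singleton_self _)

theorem map_add_graph (f : V ↪ W) (G : SimpleGraph V) (x y : V) :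
    (add G x y).map f = add (G.map f) (f x) (f y) := by
  ext a b
  rw [SimpleGraph.map_adj]
  show _ ↔ (G.map f).Adj a b ∨ (a ≠ b ∧ ((a = f x ∧ b = f y) ∨ (a = f y ∧ b = f x)))
  rw [SimpleGraph.map_adj]
  constructor
  · rintro ⟨u, v, h, rfl, rfl⟩
    rcases h with h | ⟨h1, ⟨rfl, rfl⟩ | ⟨rfl, rfl⟩⟩
    · exact Or.inl ⟨u, v, h, rfl, rfl⟩
    · exact Or.inr ⟨f.injective.ne h1, Or.inl ⟨rfl, rfl⟩⟩
    · exact Or.inr ⟨f.injective.ne h1, Or.inr ⟨rfl, rfl⟩⟩
  · rintro (⟨u, v, h, rfl, rfl⟩ | ⟨h1, ⟨rfl, rfl⟩ | ⟨rfl, rfl⟩⟩)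
    · exact ⟨u, v, Or.inl h, rfl, rfl⟩
    · exact ⟨x, y, Or.inr ⟨fun e => h1 (by rw [e]), Or.inl ⟨rfl, rfl⟩⟩, rfl, rfl⟩
    · exact ⟨y, x, Or.inr ⟨fun e => h1 (by rw [e]), Or.inr ⟨rfl, rfl⟩⟩, rfl, rfl⟩

/-- `x y` is implied by `G[S]` (generic placement) -/
def Imp (G : SimpleGraph V) (S : Finset V) (x y : V) : Prop :=
  x ∈ S ∧ y ∈ S ∧ gr (add G x y) S = gr G S

theorem imp_iff {p : V → Fin 3 → ℝ} (hp : X2.Gen p) {G : SimpleGraph V} {S : Finset V} {x y : V} :
    Imp G S x y ↔ x ∈ S ∧ y ∈ S ∧ row p x y ∈ rs p G S := by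
  unfold Imp
  refine and_congr_right fun hx => and_congr_right fun hy => ?_
  rw [row_mem_iff p G S hx hy, gen_rk_eq_gr hp, gen_rk_eq_gr hp]

theorem imp_map (f : V ↪ W) (G : SimpleGraph V) (S : Finset V) (x y : V) :
    Imp (G.map f) (S.map f) (f x) (f y) ↔ Imp G S x y := by
  unfold Imp
  rw [Finset.mem_map' f, Finset.mem_map' f, ← map_add_graph, gr_map, gr_map]

/-- implied pairs are carried by automorphisms -/
theorem imp_perm (s : V ≃ V) (G : SimpleGraph V) (S : Finset V) (hS : ∀ v, s v ∈ S ↔ v ∈ S)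
    (hG : ∀ u ∈ S, ∀ v ∈ S, (G.Adj (s u) (s v) ↔ G.Adj u v)) (x y : V) :
    Imp G S (s x) (s y) ↔ Imp G S x y := by
  have h1 : S.map s.toEmbedding = S := by
    ext v
    rw [Finset.mem_map_equiv, ← hS (s.symm v), Equiv.apply_symm_apply]
  have h2 := imp_map s.toEmbedding G S x y
  rw [h1] at h2
  refine Iff.trans ?_ h2
  have h3 : ∀ a b, a ∈ S → b ∈ S → ((G.map s.toEmbedding).Adj a b ↔ G.Adj a b) := by
    intro a b ha hb
    have ha' : s.symm a ∈ S := by rw [← hS, Equiv.apply_symm_apply]; exact ha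
    have hb' : s.symm b ∈ S := by rw [← hS, Equiv.apply_symm_apply]; exact hb
    have h4 : (G.map s.toEmbedding).Adj a b ↔ G.Adj (s.symm a) (s.symm b) := by
      have := SimpleGraph.map_adj_apply (G := G) (f := s.toEmbedding) (a := s.symm a)
        (b := s.symm b)
      simpa using this
    rw [h4, ← hG _ ha' _ hb', Equiv.apply_symm_apply, Equiv.apply_symm_apply]
  obtain ⟨p, hp⟩ := gen V
  rw [imp_iff hp, imp_iff hp]
  have h5 : rs p (G.map s.toEmbedding) S = rs p G S := rs_congr p fun u hu v hv => h3 u v hu hv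
  rw [h5]
  rfl

end Pool.Agent.Xu.X2.H40
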